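import Pool.Agent.W2helper44.OT.Stm

/-!
# PIECE CLASS of project OT
-/

set_option autoImplicit false

namespace Pool.Agent.W2helper99.OT

open Pool.Agent.W2helper44.OT

/-- the kernel of multiplication by `p ^ k` -/
abbrev Kr (p k : ℕ) (T : Type) [AddCommGroup T] : Type := {x : T // (p ^ k) • x = 0}

theorem cc_eq (p k : ℕ) (T : Type) [AddCommGroup T] [Finite T] : cc p k T = Nat.card (Kr p k T) := by
  unfold cc
  set f : T →ₗ[ℤ] T := ((p : ℤ) ^ k) • (LinearMap.id : T →ₗ[ℤ] T) with hf
  have h1 := Submodule.card_eq_card_quotient_mul_card (LinearMap.range f)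
  have h2 := Submodule.card_eq_card_quotient_mul_card (LinearMap.ker f)
  have h3 : Nat.card (T ⧸ LinearMap.ker f) = Nat.card (LinearMap.range f) :=
    Nat.card_congr f.quotKerEquivRange.toEquiv
  have h4 : Nat.card (LinearMap.ker f) = Nat.card (Kr p k T) := by
    apply Nat.card_congr
    refine Equiv.subtypeEquivRight fun x => ?_
    rw [LinearMap.mem_ker, hf]
    simp only [LinearMap.smul_apply, LinearMap.id_apply]
    rw [← natCast_zsmul]
    push_cast
    rfl
  have hpos : 0 < Nat.card (LinearMap.range f) := Nat.card_pos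
  rw [h3] at h2
  rw [← h4]
  have h5 : Nat.card (LinearMap.range f) * Nat.card (T ⧸ LinearMap.range f)
      = Nat.card (LinearMap.range f) * Nat.card (LinearMap.ker f) := by
    have := h1.symm.trans h2
    rw [mul_comm] at this
    linarith
  exact Nat.eq_of_mul_eq_mul_left hpos h5

theorem card_Kr_congr (p k : ℕ) {T T' : Type} [AddCommGroup T] [AddCommGroup T'] (e : T ≃+ T') :
    Nat.card (Kr p k T) = Nat.card (Kr p k T') := by
  apply Nat.card_congr
  refine e.toEquiv.subtypeEquiv fun x => ?_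
  show (p ^ k) • x = 0 ↔ (p ^ k) • e x = 0
  rw [← map_nsmul]
  exact (map_eq_zero_iff e e.injective).symm

theorem card_Kr_pi (p k : ℕ) {ι : Type} [Fintype ι] (A : ι → Type) [∀ i, AddCommGroup (A i)] :
    Nat.card (Kr p k (∀ i, A i)) = ∏ i, Nat.card (Kr p k (A i)) := by
  rw [← Nat.card_pi]
  apply Nat.card_congr
  refine Equiv.trans ?_ (Equiv.subtypePiEquivPi (p := fun i (x : A i) => (p ^ k) • x = 0))
  refine Equiv.subtypeEquivRight fun x => ?_
  rw [funext_iff]
  rfl

theorem card_Kr_zmod (p k n : ℕ) (hn : 0 < n) : Nat.card (Kr p k (ZMod n)) = n.gcd (p ^ k) := by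
  have : NeZero n := ⟨hn.ne'⟩
  set f : ZMod n →+ ZMod n := DistribSMul.toAddMonoidHom (ZMod n) (p ^ k) with hf
  have h1 : Nat.card f.ker = Nat.card (Kr p k (ZMod n)) := by
    apply Nat.card_congr
    exact Equiv.subtypeEquivRight fun x => Iff.rfl
  have h2 : Nat.card f.range = n / n.gcd (p ^ k) := by
    rw [← ZMod.addOrderOf_coe (p ^ k) hn.ne', ← Nat.card_zmultiples]
    congr 2
    ext x
    rw [AddMonoidHom.mem_range, AddSubgroup.mem_zmultiples_iff]
    constructor
    · rintro ⟨y, rfl⟩
      refine ⟨(y.val : ℤ), ?_⟩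
      show (y.val : ℤ) • (((p ^ k : ℕ) : ℕ) : ZMod n) = (p ^ k) • y
      rw [natCast_zsmul, nsmul_eq_mul, nsmul_eq_mul, ZMod.natCast_zmod_val, mul_comm]
    · rintro ⟨m, rfl⟩
      refine ⟨(m : ZMod n), ?_⟩
      show (p ^ k) • (m : ZMod n) = m • (((p ^ k : ℕ) : ℕ) : ZMod n)
      rw [nsmul_eq_mul, zsmul_eq_mul, mul_comm]
  have h3 : Nat.card (ZMod n) = Nat.card (ZMod n ⧸ f.ker) * Nat.card f.ker :=
    AddSubgroup.card_eq_card_quotient_mul_card_addSubgroup f.ker
  have h4 : Nat.card (ZMod n ⧸ f.ker) = Nat.card f.range :=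
    Nat.card_congr (QuotientAddGroup.quotientKerEquivRange f).toEquiv
  rw [Nat.card_zmod, h4, h2, h1] at h3
  have hg : 0 < n.gcd (p ^ k) := Nat.gcd_pos_of_pos_left _ hn
  have hd : n / n.gcd (p ^ k) * n.gcd (p ^ k) = n := Nat.div_mul_cancel (Nat.gcd_dvd_left _ _)
  have hq : 0 < n / n.gcd (p ^ k) := Nat.div_pos (Nat.le_of_dvd hn (Nat.gcd_dvd_left _ _)) hg
  exact Nat.eq_of_mul_eq_mul_left hq (h3.symm.trans hd.symm)

theorem gcd_pow (p k n : ℕ) (hp : p.Prime) (hn : 0 < n) :
    n.gcd (p ^ k) = p ^ min k (n.factorization p) := by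
  obtain ⟨m, hm, h⟩ := (Nat.dvd_prime_pow hp).1 (Nat.gcd_dvd_right n (p ^ k))
  have h1 : (n.gcd (p ^ k)).factorization p = min (n.factorization p) k := by
    rw [Nat.factorization_gcd hn.ne' (pow_ne_zero _ hp.ne_zero)]
    rw [Finsupp.inf_apply, hp.factorization_pow, Finsupp.single_eq_same]
  rw [h, hp.factorization_pow, Finsupp.single_eq_same] at h1
  rw [h, h1, min_comm]

/-- the invariant of a product of cyclic groups -/
theorem card_Kr_prod (p k : ℕ) (hp : p.Prime) {ι : Type} [Fintype ι] (N : ι → ℕ)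
    (hN : ∀ i, 0 < N i) :
    Nat.card (Kr p k (∀ i, ZMod (N i))) = p ^ ∑ i, min k ((N i).factorization p) := by
  rw [card_Kr_pi, Finset.prod_congr rfl (fun i _ => (card_Kr_zmod p k (N i) (hN i)).trans
    (gcd_pow p k (N i) hp (hN i))), Finset.prod_pow_eq_pow_sum]

/-- the exponents count -/
theorem sum_succ {ι : Type} [Fintype ι] (e : ι → ℕ) (k : ℕ) :
    ∑ i, min (k + 1) (e i) = ∑ i, min k (e i) + (Finset.univ.filter fun i => k + 1 ≤ e i).card := by
  rw [Finset.card_filter, ← Finset.sum_add_distrib]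
  refine Finset.sum_congr rfl fun i _ => ?_
  split_ifs <;> omega

theorem filter_split {ι : Type} [Fintype ι] (e : ι → ℕ) (k : ℕ) :
    (Finset.univ.filter fun i => k ≤ e i).card =
      (Finset.univ.filter fun i => e i = k).card + (Finset.univ.filter fun i => k + 1 ≤ e i).card := by
  simp only [Finset.card_filter]
  rw [← Finset.sum_add_distrib]
  refine Finset.sum_congr rfl fun i _ => ?_
  split_ifs <;> omega

theorem count_eq {ι ι' : Type} [Fintype ι] [Fintype ι'] (e : ι → ℕ) (e' : ι' → ℕ)
    (h : ∀ k, ∑ i, min k (e i) = ∑ i, min k (e' i)) (k : ℕ) :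
    (Finset.univ.filter fun i => e i = k + 1).card = (Finset.univ.filter fun i => e' i = k + 1).card := by
  have h1 : ∀ j, (Finset.univ.filter fun i => j + 1 ≤ e i).card =
      (Finset.univ.filter fun i => j + 1 ≤ e' i).card := by
    intro j
    have a := sum_succ e j
    have b := sum_succ e' j
    have c := h j
    have d := h (j + 1)
    omega
  have a := filter_split e (k + 1)
  have b := filter_split e' (k + 1)
  have c := h1 k
  have d := h1 (k + 1)
  omega

/-- removing the trivial factors -/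
theorem restr {ι : Type} (N : ι → ℕ) :
    Nonempty ((∀ i, ZMod (N i)) ≃+ ∀ i : {i // N i ≠ 1}, ZMod (N i)) := by
  classical
  refine ⟨{ toFun := fun f i => f i.1
            invFun := fun g i => if h : N i ≠ 1 then g ⟨i, h⟩ else 0
            left_inv := ?_
            right_inv := ?_
            map_add' := fun f g => rfl }⟩
  · intro f
    funext i
    by_cases h : N i ≠ 1
    · simp only [dif_pos h]
    · simp only [dif_neg h]
      have h' : N i = 1 := not_not.1 h
      have : Subsingleton (ZMod (N i)) := by rw [h']; infer_instance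
      exact Subsingleton.elim _ _
  · intro g
    funext i
    simp only [dif_pos i.2]

theorem congr_pi {I I' : Type} (N : I → ℕ) (N' : I' → ℕ) (σ : I ≃ I') (h : ∀ i, N' (σ i) = N i) :
    Nonempty ((∀ i, ZMod (N i)) ≃+ ∀ i, ZMod (N' i)) := by
  obtain rfl : N = fun i => N' (σ i) := funext fun i => (h i).symm
  exact ⟨(RingEquiv.piCongrLeft (fun i => ZMod (N' i)) σ).toAddEquiv⟩

/-- families with the same fibres -/
theorem reindex {I I' : Type} [Finite I] [Finite I'] (N : I → ℕ) (N' : I' → ℕ)
    (h : ∀ m, Nat.card {i // N i = m} = Nat.card {i // N' i = m}) :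
    ∃ σ : I ≃ I', ∀ i, N' (σ i) = N i := by
  have e0 : ∀ m, Nonempty ({i // N i = m} ≃ {i // N' i = m}) := fun m =>
    Finite.card_eq.1 (h m)
  let e : ∀ m, ({i // N i = m} ≃ {i // N' i = m}) := fun m => Classical.choice (e0 m)
  let σ : I ≃ I' := (Equiv.sigmaFiberEquiv N).symm.trans
    ((Equiv.sigmaCongrRight fun m => e m).trans (Equiv.sigmaFiberEquiv N'))
  refine ⟨σ, fun i => ?_⟩
  exact (e (N i) ⟨i, rfl⟩).2

/-- uniqueness for products of cyclic groups of prime power order -/
theorem unique {I I' : Type} [Fintype I] [Fintype I'] (q : I → ℕ) (e : I → ℕ) (q' : I' → ℕ)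
    (e' : I' → ℕ) (hq : ∀ i, (q i).Prime) (hq' : ∀ i, (q' i).Prime)
    (h : ∀ p k : ℕ, p.Prime → ∑ i, min k ((q i ^ e i).factorization p) =
      ∑ i, min k ((q' i ^ e' i).factorization p)) :
    Nonempty ((∀ i, ZMod (q i ^ e i)) ≃+ ∀ i, ZMod (q' i ^ e' i)) := by
  obtain ⟨a⟩ := restr (fun i => q i ^ e i)
  obtain ⟨b⟩ := restr (fun i => q' i ^ e' i)
  have key : ∀ m, Nat.card {i : {i // q i ^ e i ≠ 1} // q i.1 ^ e i.1 = m} =
      Nat.card {i : {i // q' i ^ e' i ≠ 1} // q' i.1 ^ e' i.1 = m} := by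
    intro m
    have red : ∀ {J : Type} [Fintype J] (r : J → ℕ) (f : J → ℕ), (∀ i, (r i).Prime) →
        Nat.card {i : {i // r i ^ f i ≠ 1} // r i.1 ^ f i.1 = m} =
          if m = 1 then 0 else (Finset.univ.filter fun i => r i ^ f i = m).card := by
      intro J _ r f hr
      split_ifs with hm
      · rw [Nat.card_eq_zero]
        left
        refine ⟨fun x => x.1.2 (x.2.trans hm)⟩
      · rw [← Fintype.card_subtype, ← Nat.card_eq_fintype_card]
        apply Nat.card_congr
        exact { toFun := fun x => ⟨x.1.1, x.2⟩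
                invFun := fun x => ⟨⟨x.1, fun hx => hm (x.2.symm.trans hx)⟩, x.2⟩
                left_inv := fun x => rfl
                right_inv := fun x => rfl }
    rw [red q e hq, red q' e' hq']
    split_ifs with hm
    · rfl
    · by_cases hpp : ∃ p k : ℕ, p.Prime ∧ m = p ^ (k + 1)
      · obtain ⟨p, k, hp, rfl⟩ := hpp
        have conv : ∀ {J : Type} [Fintype J] (r : J → ℕ) (f : J → ℕ), (∀ i, (r i).Prime) →
            (Finset.univ.filter fun i => r i ^ f i = p ^ (k + 1)) =
              Finset.univ.filter fun i => (r i ^ f i).factorization p = k + 1 := by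
          intro J _ r f hr
          ext i
          simp only [Finset.mem_filter, Finset.mem_univ, true_and]
          constructor
          · intro hx
            rw [hx, hp.factorization_pow, Finsupp.single_eq_same]
          · intro hx
            rw [(hr i).factorization_pow] at hx
            by_cases hrp : r i = p
            · rw [hrp, Finsupp.single_eq_same] at hx
              rw [hrp, hx]
            · rw [Finsupp.single_apply, if_neg hrp] at hx
              omega
        rw [conv q e hq, conv q' e' hq']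
        exact count_eq _ _ (fun k => h p k hp) k
      · have emp : ∀ {J : Type} [Fintype J] (r : J → ℕ) (f : J → ℕ), (∀ i, (r i).Prime) →
            (Finset.univ.filter fun i => r i ^ f i = m) = ∅ := by
          intro J _ r f hr
          ext i
          simp only [Finset.mem_filter, Finset.mem_univ, true_and, Finset.notMem_empty, iff_false]
          intro hx
          rcases Nat.eq_zero_or_pos (f i) with h0 | h0
          · rw [h0, pow_zero] at hx
            exact hm hx.symm
          · exact hpp ⟨r i, f i - 1, hr i, by rw [Nat.sub_add_cancel h0]; exact hx.symm⟩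
        rw [emp q e hq, emp q' e' hq', Finset.card_empty, Finset.card_empty]
  obtain ⟨σ, hσ⟩ := reindex (fun i : {i // q i ^ e i ≠ 1} => q i.1 ^ e i.1)
    (fun i : {i // q' i ^ e' i ≠ 1} => q' i.1 ^ e' i.1) key
  obtain ⟨c⟩ := congr_pi (fun i : {i // q i ^ e i ≠ 1} => q i.1 ^ e i.1)
    (fun i : {i // q' i ^ e' i ≠ 1} => q' i.1 ^ e' i.1) σ hσ
  exact ⟨a.trans (c.trans b.symm)⟩

/-- finite abelian groups are determined by the orders of `T / p ^ k T` -/
theorem of_cc (T T' : Type) [AddCommGroup T] [Finite T] [AddCommGroup T'] [Finite T']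
    (h : ∀ p k : ℕ, p.Prime → cc p k T = cc p k T') : Nonempty (T ≃+ T') := by
  classical
  obtain ⟨I, hI, q, hq, e, ⟨φ⟩⟩ := AddCommGroup.equiv_directSum_zmod_of_finite T
  obtain ⟨I', hI', q', hq', e', ⟨φ'⟩⟩ := AddCommGroup.equiv_directSum_zmod_of_finite T'
  have ψ : T ≃+ (∀ i, ZMod (q i ^ e i)) :=
    φ.trans (DirectSum.addEquivProd fun i => ZMod (q i ^ e i))
  have ψ' : T' ≃+ (∀ i, ZMod (q' i ^ e' i)) :=
    φ'.trans (DirectSum.addEquivProd fun i => ZMod (q' i ^ e' i))
  obtain ⟨u⟩ := unique q e q' e' hq hq' (by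
    intro p k hp
    have h1 := h p k hp
    rw [cc_eq, cc_eq, card_Kr_congr p k ψ, card_Kr_congr p k ψ',
      card_Kr_prod p k hp _ (fun i => pow_pos (hq i).pos _),
      card_Kr_prod p k hp _ (fun i => pow_pos (hq' i).pos _)] at h1
    exact Nat.pow_right_injective hp.two_le h1)
  exact ⟨ψ.trans (u.trans ψ'.symm)⟩

theorem p_CLASS : P_CLASS := by
  intro T _ _ r δ hδ h
  have : ∀ j, NeZero (δ j) := fun j => ⟨(hδ j).ne'⟩
  have : Finite ((j : Fin r) → ZMod (δ j)) := Pi.finite
  apply of_cc
  intro p k hp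
  rw [h p k hp, cc_eq, card_Kr_prod p k hp δ hδ]

end Pool.Agent.W2helper99.OT
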